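import Pool.Agent.Work.MP_280d1a_an.Final

/-!
# Minimizers of high Dirichlet eigenvalues under a perimeter constraint converge to the ball

In dimension `N ≥ 3`, minimizers of the `k`-th Dirichlet eigenvalue among quasi-open sets of
perimeter at most `P₀` converge, up to translations, to the ball of perimeter `P₀` as `k → ∞`.
-/

set_option autoImplicit false

open MeasureTheory Filter Topology
open Pool.Agent.Work.MP_280d1a_an

namespace Pool.Agent.Results.MP_280d1a_an.PerimeterMinimizers

/-- Full answer to the first question: for every `N ≥ 3` and every choice of minimizers `Ω k` of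
`λ_k` under the constraint `P(Ω) ≤ P₀`, the `L¹` distance, up to translations, of `Ω k` to the
ball `B_P` (the unique ball centred at `0` of perimeter `P₀`) tends to `0`. -/
theorem result : ∀ (N : ℕ), 3 ≤ N → ∀ (P₀ : ℝ), 0 < P₀ → ∀ (Ω : ℕ → Set (E N)),
    (∀ k, 1 ≤ k → IsMinimizer P₀ k (Ω k)) →
    ∃ r : ℝ, 0 < r ∧ perimeter (Metric.ball (0 : E N) r) = ENNReal.ofReal P₀ ∧
      (∀ s : ℝ, 0 < s → perimeter (Metric.ball (0 : E N) s) = ENNReal.ofReal P₀ → s = r) ∧
      Tendsto (fun k => distToBall r (Ω k)) atTop (𝓝 0) :=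
  fun _ hN _ hP₀ Ω hΩ => main_theorem hN hP₀ Ω hΩ

end Pool.Agent.Results.MP_280d1a_an.PerimeterMinimizers
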